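import Pool.Agent.Helper9.BA.CalcC2
import Pool.Agent.Helper59.BA.CalcC3
import Pool.Agent.Helper28.BA.JPcalc
import Pool.Agent.Helper36.BA.Koenig

/-!
# Project BA, B22: sealing powers
-/

set_option autoImplicit false

namespace Pool.Agent.Helper94.BA

open Pool.Agent.Helper33.HM

universe u

variable {B : Type u} [CompleteBooleanAlgebra B] {K K' : Set (Finset ℕ → B)} {A : (ℕ → B) → B}

/-- N15a. -/
theorem seal_power (hK : SmallIdeal K) {D : Finset ℕ → B} (hD : IsCF D)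
    (hDJ : ∀ x : ℕ → B, memC x D ⊓ JP K A x = ⊥) {C : Finset ℕ → B} (hC : C ∈ K) (r : ℕ)
    (x : ℕ → B) : memC x (joinC C (powC D r)) ⊓ JP K A x = ⊥ := by
  induction r generalizing x with
  | zero =>
    have h1 : memC x (joinC C (powC D 0)) ≤ memC x C := by
      have h2 := memC_joinC_PC (hK.cf C hC) x ⊥
      rw [compl_bot, inf_top_eq] at h2
      exact h2
    exact le_bot_iff.1 ((inf_le_inf_right _ h1).trans (JP_mem A hC x).le)
  | succ r ih =>
    have e : joinC C (powC D (r + 1)) = joinC D (joinC C (powC D r)) := by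
      show joinC C (joinC D (powC D r)) = joinC D (joinC C (powC D r))
      rw [← joinC_assoc, joinC_comm C D, joinC_assoc]
    obtain ⟨y, hyx, hy⟩ := koenig hD (isCF_joinC (hK.cf C hC) (isCF_powC hD r)) x
    rw [e]
    have h3 : JP K A x ≤ JP K A y ⊔ JP K A (x ⊓ yᶜ) := by
      have h4 := JP_sup hK A y (x ⊓ yᶜ)
      have h5 : y ⊔ (x ⊓ yᶜ) = x := by
        rw [sup_inf_left, sup_compl_eq_top, inf_top_eq]
        exact sup_eq_right.2 hyx
      rw [h5] at h4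
      exact h4
    have h6 := hDJ y
    have h7 := ih (x ⊓ yᶜ)
    rw [← le_bot_iff]
    refine (inf_le_inf hy h3).trans ?_
    rw [inf_sup_left]
    refine sup_le ?_ ?_
    · rw [← h6]
      exact inf_le_inf_right _ inf_le_left
    · rw [← h7]
      exact inf_le_inf_right _ inf_le_right

/-- N15b. -/
theorem seal_ideal (hK : SmallIdeal K) (htop : JP K A ⊤ = ⊤) (D : ℕ → Finset ℕ → B)
    (hD : ∀ n, IsCF (D n)) (hDm : ∀ n, D n ≤ D (n + 1))
    (hDJ : ∀ n x, memC x (D n) ⊓ JP K A x = ⊥) :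
    SmallIdeal {E : Finset ℕ → B | ∃ C ∈ K, ∃ n : ℕ, E = joinC C (powC (D n) n)} ∧
      Ref K {E : Finset ℕ → B | ∃ C ∈ K, ∃ n : ℕ, E = joinC C (powC (D n) n)} ∧
      JP {E : Finset ℕ → B | ∃ C ∈ K, ∃ n : ℕ, E = joinC C (powC (D n) n)} A ⊤ = ⊤ := by
  have hmono : Monotone D := monotone_nat_of_le_succ hDm
  refine ⟨⟨?_, ?_, ?_, ?_⟩, ?_, ?_⟩
  · have := hK.small
    have e : {E : Finset ℕ → B | ∃ C ∈ K, ∃ n : ℕ, E = joinC C (powC (D n) n)} =
        Set.range fun p : K × ℕ => joinC (p.1 : Finset ℕ → B) (powC (D p.2) p.2) := by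
      ext E
      constructor
      · rintro ⟨C, hC, n, rfl⟩
        exact ⟨(⟨C, hC⟩, n), rfl⟩
      · rintro ⟨⟨⟨C, hC⟩, n⟩, rfl⟩
        exact ⟨C, hC, n, rfl⟩
    rw [e]
    infer_instance
  · rintro E ⟨C, hC, n, rfl⟩
    exact isCF_joinC (hK.cf C hC) (isCF_powC (hD n) n)
  · intro m
    obtain ⟨C, hC, hm⟩ := hK.fin m
    exact ⟨_, ⟨C, hC, 0, rfl⟩, hm.trans (le_joinC_left C (isCF_powC (hD 0) 0))⟩
  · rintro _ ⟨C₁, hC₁, n₁, rfl⟩ _ ⟨C₂, hC₂, n₂, rfl⟩
    obtain ⟨E, hE, hCE⟩ := hK.dir C₁ hC₁ C₂ hC₂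
    refine ⟨_, ⟨E, hE, n₁ + n₂, rfl⟩, ?_⟩
    have e1 : joinC (joinC C₁ (powC (D n₁) n₁)) (joinC C₂ (powC (D n₂) n₂)) =
        joinC (joinC C₁ C₂) (joinC (powC (D n₁) n₁) (powC (D n₂) n₂)) := by
      rw [joinC_assoc, joinC_assoc, ← joinC_assoc (powC (D n₁) n₁) C₂,
        joinC_comm (powC (D n₁) n₁) C₂, joinC_assoc C₂]
    rw [e1, ← joinC_powC]
    exact joinC_mono hCE (joinC_mono
      (powC_mono (hD _) (hD _) (hmono (Nat.le_add_right _ _)) le_rfl)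
      (powC_mono (hD _) (hD _) (hmono (Nat.le_add_left _ _)) le_rfl))
  · intro C hC
    exact ⟨_, ⟨C, hC, 0, rfl⟩, le_joinC_left C (isCF_powC (hD 0) 0)⟩
  · rw [← top_le_iff]
    unfold JP
    refine le_iInf fun E => le_iInf fun hE => le_iInf fun l => ?_
    obtain ⟨C, hC, n, rfl⟩ := hE
    rw [le_himp_iff, top_inf_eq]
    have h1 := JP_allV K A l ⊤
    rw [htop, inf_top_eq] at h1
    have h2 := seal_power hK (hD n) (hDJ n) hC n (⊤ ⊓ (usup l)ᶜ)
    refine h1.trans ?_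
    rw [← disjoint_iff] at h2
    exact h2.symm.le_compl_right

end Pool.Agent.Helper94.BA
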